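import Mathlib

/-!
# A composite `n` outside the list with `φ₃(n) ∣ n - 1`
-/

set_option autoImplicit false

namespace Pool.Agent.Results.MP_3af439_nt.Counterexample

open Finset

/-- `φ_e(n)`: the number of `i` with `1 ≤ i ≤ ⌊n/e⌋` and `gcd(i, n) = 1`. -/
def phi (e n : ℕ) : ℕ := ((Finset.Icc 1 (n / e)).filter fun i => Nat.gcd i n = 1).card

/-- The list of known exceptions. -/
def E : Finset ℕ := {4, 6, 8, 9, 12, 16, 21, 65, 425, 1729, 3201, 3531, 22865}

/-- The number of `1 ≤ i ≤ X` not divisible by any member of `L`. -/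
def cnt (L : List ℕ) (X : ℕ) : ℕ := ((Finset.Icc 1 X).filter fun i => ∀ p ∈ L, ¬ p ∣ i).card

lemma cnt_nil (X : ℕ) : cnt [] X = X := by
  simp [cnt]

lemma cnt_cons {p : ℕ} {L : List ℕ} (hp : p.Prime) (hL : ∀ q ∈ L, q.Prime ∧ q ≠ p) (X : ℕ) :
    cnt (p :: L) X + cnt L (X / p) = cnt L X := by
  unfold cnt
  have h1 : ((Finset.Icc 1 X).filter fun i => ∀ q ∈ L, ¬ q ∣ i) =
      ((Finset.Icc 1 X).filter fun i => ∀ q ∈ p :: L, ¬ q ∣ i) ∪
        (((Finset.Icc 1 (X / p)).filter fun i => ∀ q ∈ L, ¬ q ∣ i).image fun j => p * j) := by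
    ext i
    simp only [mem_filter, mem_Icc, mem_union, mem_image, List.mem_cons, forall_eq_or_imp]
    constructor
    · rintro ⟨⟨h1, h2⟩, h3⟩
      by_cases hpi : p ∣ i
      · right
        obtain ⟨j, rfl⟩ := hpi
        refine ⟨j, ⟨⟨Nat.pos_of_ne_zero (by rintro rfl; simp at h1), ?_⟩, ?_⟩, rfl⟩
        · rw [Nat.le_div_iff_mul_le hp.pos, mul_comm]
          exact h2
        · intro q hq hqj
          exact h3 q hq (hqj.mul_left p)
      · exact Or.inl ⟨⟨h1, h2⟩, hpi, h3⟩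
    · rintro (⟨h1, h2, h3⟩ | ⟨j, ⟨⟨h1, h2⟩, h3⟩, rfl⟩)
      · exact ⟨h1, h3⟩
      · refine ⟨⟨Nat.mul_pos hp.pos h1, ?_⟩, ?_⟩
        · rw [Nat.le_div_iff_mul_le hp.pos, mul_comm] at h2
          exact h2
        · intro q hq hqj
          rcases (hL q hq).1.dvd_mul.1 hqj with h | h
          · exact (hL q hq).2 ((Nat.prime_dvd_prime_iff_eq (hL q hq).1 hp).1 h)
          · exact h3 q hq h
  rw [h1, card_union_of_disjoint, card_image_of_injective _ (fun a b h => Nat.eq_of_mul_eq_mul_left hp.pos h)]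
  rw [Finset.disjoint_left]
  intro i hi hi'
  simp only [mem_filter, mem_Icc, mem_image, List.mem_cons, forall_eq_or_imp] at hi hi'
  obtain ⟨j, _, rfl⟩ := hi'
  exact hi.2.1 (dvd_mul_right p j)

lemma cnt_step {p : ℕ} {L : List ℕ} (hp : p.Prime) (hL : ∀ q ∈ L, q.Prime ∧ q ≠ p) (X : ℕ) :
    cnt (p :: L) X = cnt L X - cnt L (X / p) := by
  have := cnt_cons hp hL X
  omega

lemma cop_iff {i : ℕ} : Nat.gcd i (3 * (17 * (23 * 3517))) = 1 ↔ ∀ p ∈ [3517, 23, 17, 3], ¬ p ∣ i := by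
  have h (p : ℕ) (hp : p.Prime) : Nat.Coprime i p ↔ ¬ p ∣ i := by
    rw [Nat.coprime_comm]; exact hp.coprime_iff_not_dvd
  rw [← Nat.coprime_iff_gcd_eq_one, Nat.coprime_mul_iff_right, Nat.coprime_mul_iff_right,
    Nat.coprime_mul_iff_right, h 3 (by norm_num), h 17 (by norm_num), h 23 (by norm_num),
    h 3517 (by norm_num)]
  simp
  tauto

lemma phi_val : phi 3 4125441 = 825088 := by
  have e0 : (4125441 : ℕ) = 3 * (17 * (23 * 3517)) := by norm_num
  have e1 : (3 * (17 * (23 * 3517)) / 3 : ℕ) = 1375147 := by norm_num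
  have h : phi 3 4125441 = cnt [3517, 23, 17, 3] 1375147 := by
    rw [e0]
    unfold phi cnt
    rw [e1]
    generalize (1375147 : ℕ) = X
    have : ∀ i : ℕ, (Nat.gcd i (3 * (17 * (23 * 3517))) = 1) = (∀ p ∈ [3517, 23, 17, 3], ¬ p ∣ i) :=
      fun i => propext cop_iff
    simp only [this]
  rw [h]
  have s0 (X : ℕ) : cnt [3] X = X - X / 3 := by
    rw [cnt_step (by norm_num) (by simp), cnt_nil, cnt_nil]
  have s1 (X : ℕ) : cnt [17, 3] X = cnt [3] X - cnt [3] (X / 17) :=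
    cnt_step (by norm_num) (by intro q hq; simp at hq; subst hq; norm_num) X
  have s2 (X : ℕ) : cnt [23, 17, 3] X = cnt [17, 3] X - cnt [17, 3] (X / 23) :=
    cnt_step (by norm_num) (by intro q hq; simp at hq; rcases hq with h | h <;> subst h <;> norm_num) X
  have s3 (X : ℕ) : cnt [3517, 23, 17, 3] X = cnt [23, 17, 3] X - cnt [23, 17, 3] (X / 3517) :=
    cnt_step (by norm_num)
      (by intro q hq; simp at hq; rcases hq with h | h | h <;> subst h <;> norm_num) X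
  simp only [s3, s2, s1, s0]

/-- The conjecture is false: `n = 4125441 = 3 · 17 · 23 · 3517` is composite, is not in `E`, and
`φ₃(n) = 825088` divides `n - 1 = 5 · 825088`. -/
theorem result : ∃ n : ℕ, 4 ≤ n ∧ ¬ n.Prime ∧ n ∉ E ∧ phi 3 n ∣ n - 1 := by
  refine ⟨4125441, by norm_num, by norm_num, by decide, ?_⟩
  rw [phi_val]
  norm_num

end Pool.Agent.Results.MP_3af439_nt.Counterexample
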